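import Mathlib

/-!
# MP_025d69_co : two nonsingular block graphs joined by an edge can be singular

Counterexample on `7 + 4` vertices.  `G₁` consists of a triangle `0 1 2` with a further
triangle `1 3 4` glued at `1` and a further triangle `2 5 6` glued at `2`; `G₂` is the paw
(a triangle `1 2 3` with a pendant vertex `0` attached at `1`).  The new edge joins the vertex
`0` of `G₁` to the pendant vertex `0` of `G₂`.
-/

namespace Pool.Agent.Results.MP_025d69_co.JoinByEdge

open SimpleGraph

universe u

/-- `v` is a cut-vertex of `G`: its deletion increases the number of connected components, i.e.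
there are two vertices `x, y` other than `v` that are joined by a path of `G` but by no path of
`G - v`. -/
def IsCutVertex {V : Type u} (G : SimpleGraph V) (v : V) : Prop :=
  ∃ x y : ({v}ᶜ : Set V), G.Reachable x.1 y.1 ∧ ¬ (G.induce ({v}ᶜ : Set V)).Reachable x y

/-- A block of `G`: a maximal connected subgraph with no cut-vertex. -/
def IsBlock {V : Type u} (G : SimpleGraph V) (B : G.Subgraph) : Prop :=
  Maximal (fun H : G.Subgraph => H.coe.Connected ∧ ∀ v, ¬ IsCutVertex H.coe v) B

/-- A block graph: a connected graph in which every block is a complete graph. -/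
def IsBlockGraph {V : Type u} (G : SimpleGraph V) : Prop :=
  G.Connected ∧ ∀ B : G.Subgraph, IsBlock G B → B.coe = ⊤

open Classical in
/-- `G` is nonsingular: the real `0/1` adjacency matrix of `G` has nonzero determinant. -/
def Nonsingular {V : Type u} [Fintype V] (G : SimpleGraph V) : Prop :=
  (G.adjMatrix ℝ).det ≠ 0

/-- The graph obtained from the disjoint union of `G₁` and `G₂` by adding the edge `v₁v₂`. -/
def joinByEdge {V₁ V₂ : Type u} (G₁ : SimpleGraph V₁) (G₂ : SimpleGraph V₂) (v₁ : V₁) (v₂ : V₂) :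
    SimpleGraph (V₁ ⊕ V₂) :=
  G₁.sum G₂ ⊔ SimpleGraph.edge (Sum.inl v₁) (Sum.inr v₂)

/-! ### Reachability and closed sets -/

lemma not_reachable_of_closed {V : Type u} {G : SimpleGraph V} {S : Set V}
    (hS : ∀ a b, G.Adj a b → a ∈ S → b ∈ S) {x y : V} (hx : x ∈ S) (hy : y ∉ S) :
    ¬ G.Reachable x y := by
  rintro ⟨p⟩
  apply hy
  induction p with
  | nil => exact hx
  | cons h p ih => exact ih (hS _ _ h hx) hy

/-- Any two distinct nonadjacent vertices are separated by a third one. -/
def Sep {V : Type u} (G : SimpleGraph V) : Prop :=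
  ∀ x y : V, x ≠ y → ¬ G.Adj x y → ∃ c, c ≠ x ∧ c ≠ y ∧ ∃ S : Set V, x ∈ S ∧ y ∉ S ∧
    ∀ a b, G.Adj a b → a ≠ c → b ≠ c → a ∈ S → b ∈ S

lemma not_isCutVertex_top {V : Type u} (v : V) : ¬ IsCutVertex (⊤ : SimpleGraph V) v := by
  rintro ⟨x, y, -, h⟩
  apply h
  by_cases hxy : x = y
  · subst hxy; exact Reachable.refl _
  · apply Adj.reachable
    simp only [comap_adj, Function.Embedding.subtype_apply, top_adj]
    exact fun h => hxy (Subtype.ext h)

lemma adj_of_sep {V : Type u} {G : SimpleGraph V} (hG : Sep G) (B : G.Subgraph)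
    (hc : B.coe.Connected) (hB : ∀ v, ¬ IsCutVertex B.coe v) {x y : V} (hx : x ∈ B.verts)
    (hy : y ∈ B.verts) (hxy : x ≠ y) : G.Adj x y := by
  by_contra hadj
  obtain ⟨c, hcx, hcy, S, hxS, hyS, hS⟩ := hG x y hxy hadj
  by_cases hcB : c ∈ B.verts
  · apply hB ⟨c, hcB⟩
    refine ⟨⟨⟨x, hx⟩, ?_⟩, ⟨⟨y, hy⟩, ?_⟩, hc.preconnected _ _, ?_⟩
    · simp only [Set.mem_compl_iff, Set.mem_singleton_iff, Subtype.mk.injEq]
      exact fun h => hcx h.symm
    · simp only [Set.mem_compl_iff, Set.mem_singleton_iff, Subtype.mk.injEq]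
      exact fun h => hcy h.symm
    · apply not_reachable_of_closed (S := {a | a.1.1 ∈ S})
      · rintro ⟨⟨a, ha⟩, ha'⟩ ⟨⟨b, hb⟩, hb'⟩ hab haS
        simp only [comap_adj, Function.Embedding.subtype_apply, Subgraph.coe_adj] at hab
        simp only [Set.mem_compl_iff, Set.mem_singleton_iff, Subtype.mk.injEq] at ha' hb'
        exact hS a b hab.adj_sub ha' hb' haS
      · exact hxS
      · exact hyS
  · have : B.coe.Reachable ⟨x, hx⟩ ⟨y, hy⟩ := hc.preconnected _ _
    revert this
    apply not_reachable_of_closed (S := {a | a.1 ∈ S})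
    · rintro ⟨a, ha⟩ ⟨b, hb⟩ hab haS
      simp only [Subgraph.coe_adj] at hab
      refine hS a b hab.adj_sub ?_ ?_ haS
      · rintro rfl; exact hcB ha
      · rintro rfl; exact hcB hb
    · exact hxS
    · exact hyS

lemma isBlockGraph_of_sep {V : Type u} {G : SimpleGraph V} (hconn : G.Connected) (hG : Sep G) :
    IsBlockGraph G := by
  refine ⟨hconn, fun B hB => ?_⟩
  obtain ⟨⟨hc, hcut⟩, hmax⟩ := hB
  have hadj : ∀ x ∈ B.verts, ∀ y ∈ B.verts, x ≠ y → G.Adj x y :=
    fun x hx y hy hxy => adj_of_sep hG B hc hcut hx hy hxy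
  set H : G.Subgraph := (⊤ : G.Subgraph).induce B.verts with hH
  have hHtop : H.coe = ⊤ := by
    ext ⟨a, ha⟩ ⟨b, hb⟩
    have ha' : a ∈ B.verts := ha
    have hb' : b ∈ B.verts := hb
    simp only [Subgraph.coe_adj, top_adj, ne_eq, Subtype.mk.injEq, hH, Subgraph.induce_adj,
      Subgraph.top_adj]
    constructor
    · rintro ⟨-, -, h⟩
      exact h.ne
    · intro h
      exact ⟨ha', hb', hadj a ha' b hb' h⟩
  have hBH : B ≤ H := by
    refine ⟨?_, ?_⟩
    · exact subset_rfl
    · intro a b hab
      simp only [hH, Subgraph.induce_adj, Subgraph.top_adj]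
      exact ⟨B.edge_vert hab, B.edge_vert hab.symm, hab.adj_sub⟩
  have hHB : H ≤ B := by
    apply hmax _ hBH
    have hne : Nonempty H.verts := by
      obtain ⟨x⟩ := hc.nonempty
      exact ⟨⟨x.1, x.2⟩⟩
    rw [hHtop]
    exact ⟨connected_top, fun v => not_isCutVertex_top v⟩
  have : B = H := le_antisymm hBH hHB
  rw [this]
  exact hHtop

/-! ### The two graphs -/

/-- Adjacency of `G₁` as a Boolean table. -/
def adj₁ : Fin 7 → Fin 7 → Bool := ![
  ![false, true, true, false, false, false, false],
  ![true, false, true, true, true, false, false],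
  ![true, true, false, false, false, true, true],
  ![false, true, false, false, true, false, false],
  ![false, true, false, true, false, false, false],
  ![false, false, true, false, false, false, true],
  ![false, false, true, false, false, true, false]]

/-- Adjacency of `G₂` as a Boolean table. -/
def adj₂ : Fin 4 → Fin 4 → Bool := ![
  ![false, true, false, false],
  ![true, false, true, true],
  ![false, true, false, true],
  ![false, true, true, false]]

/-- The triangle `0 1 2` with the triangles `1 3 4` and `2 5 6` glued at `1` and at `2`. -/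
def G₁ : SimpleGraph (Fin 7) where
  Adj a b := adj₁ a b = true
  symm.symm := by decide
  loopless.irrefl := by decide

/-- The paw: the triangle `1 2 3` with the pendant vertex `0` attached at `1`. -/
def G₂ : SimpleGraph (Fin 4) where
  Adj a b := adj₂ a b = true
  symm.symm := by decide
  loopless.irrefl := by decide

instance : DecidableRel G₁.Adj := fun a b => inferInstanceAs (Decidable (adj₁ a b = true))
instance : DecidableRel G₂.Adj := fun a b => inferInstanceAs (Decidable (adj₂ a b = true))


/-- For a nonadjacent pair of vertices of `G₁`, a separating vertex and the side of the first. -/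
def sepData₁ (x y : Fin 7) : Fin 7 × (Fin 7 → Bool) :=
  if x = 3 ∨ x = 4 then (1, ![false, false, false, true, true, false, false])
  else if x = 5 ∨ x = 6 then (2, ![false, false, false, false, false, true, true])
  else if y = 3 ∨ y = 4 then (1, ![true, false, true, false, false, true, true])
  else (2, ![true, true, false, true, true, false, false])

/-- For a nonadjacent pair of vertices of `G₂`, a separating vertex and the side of the first. -/
def sepData₂ (x _y : Fin 4) : Fin 4 × (Fin 4 → Bool) :=
  if x = 0 then (1, ![true, false, false, false])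
  else (1, ![false, false, true, true])

lemma sepData₁_spec : ∀ x y : Fin 7, x ≠ y → adj₁ x y = false →
    (sepData₁ x y).1 ≠ x ∧ (sepData₁ x y).1 ≠ y ∧ (sepData₁ x y).2 x = true ∧
      (sepData₁ x y).2 y = false ∧
      ∀ a b, adj₁ a b = true → a ≠ (sepData₁ x y).1 → b ≠ (sepData₁ x y).1 →
        (sepData₁ x y).2 a = true → (sepData₁ x y).2 b = true := by
  decide

lemma sepData₂_spec : ∀ x y : Fin 4, x ≠ y → adj₂ x y = false →
    (sepData₂ x y).1 ≠ x ∧ (sepData₂ x y).1 ≠ y ∧ (sepData₂ x y).2 x = true ∧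
      (sepData₂ x y).2 y = false ∧
      ∀ a b, adj₂ a b = true → a ≠ (sepData₂ x y).1 → b ≠ (sepData₂ x y).1 →
        (sepData₂ x y).2 a = true → (sepData₂ x y).2 b = true := by
  decide

lemma sep₁ : Sep G₁ := by
  intro x y hxy hadj
  have hadj' : adj₁ x y = false := by
    have : ¬ (adj₁ x y = true) := hadj
    simpa using this
  obtain ⟨h1, h2, h3, h4, h5⟩ := sepData₁_spec x y hxy hadj'
  refine ⟨_, h1, h2, {a | (sepData₁ x y).2 a = true}, h3, ?_, ?_⟩
  · simp [h4]
  · intro a b hab ha hb haS
    exact h5 a b hab ha hb haS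

lemma sep₂ : Sep G₂ := by
  intro x y hxy hadj
  have hadj' : adj₂ x y = false := by
    have : ¬ (adj₂ x y = true) := hadj
    simpa using this
  obtain ⟨h1, h2, h3, h4, h5⟩ := sepData₂_spec x y hxy hadj'
  refine ⟨_, h1, h2, {a | (sepData₂ x y).2 a = true}, h3, ?_, ?_⟩
  · simp [h4]
  · intro a b hab ha hb haS
    exact h5 a b hab ha hb haS

lemma connected₁ : G₁.Connected := by
  have h01 : G₁.Reachable 0 1 := Adj.reachable (by decide)
  have h02 : G₁.Reachable 0 2 := Adj.reachable (by decide)
  have h13 : G₁.Reachable 1 3 := Adj.reachable (by decide)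
  have h14 : G₁.Reachable 1 4 := Adj.reachable (by decide)
  have h25 : G₁.Reachable 2 5 := Adj.reachable (by decide)
  have h26 : G₁.Reachable 2 6 := Adj.reachable (by decide)
  have h : ∀ x, G₁.Reachable 0 x := by
    intro x
    fin_cases x
    · exact Reachable.refl _
    · exact h01
    · exact h02
    · exact h01.trans h13
    · exact h01.trans h14
    · exact h02.trans h25
    · exact h02.trans h26
  exact { preconnected := fun x y => (h x).symm.trans (h y), nonempty := ⟨0⟩ }

lemma connected₂ : G₂.Connected := by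
  have h01 : G₂.Reachable 0 1 := Adj.reachable (by decide)
  have h12 : G₂.Reachable 1 2 := Adj.reachable (by decide)
  have h13 : G₂.Reachable 1 3 := Adj.reachable (by decide)
  have h : ∀ x, G₂.Reachable 0 x := by
    intro x
    fin_cases x
    · exact Reachable.refl _
    · exact h01
    · exact h01.trans h12
    · exact h01.trans h13
  exact { preconnected := fun x y => (h x).symm.trans (h y), nonempty := ⟨0⟩ }

/-! ### Determinants -/

lemma nonsingular_iff {V : Type u} [Fintype V] [DecidableEq V] (G : SimpleGraph V)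
    [DecidableRel G.Adj] : Nonsingular G ↔ (G.adjMatrix ℤ).det ≠ 0 := by
  have h : (G.adjMatrix ℝ).det = (((G.adjMatrix ℤ).det : ℤ) : ℝ) := by
    have h1 := (Int.castRingHom ℝ).map_det (G.adjMatrix ℤ)
    rw [eq_intCast] at h1
    rw [h1]
    congr 1
    ext i j
    simp [SimpleGraph.adjMatrix_apply]
  have h2 : Nonsingular G ↔ (G.adjMatrix ℝ).det ≠ 0 := by
    unfold Nonsingular
    have key : ∀ (d1 d2 : DecidableEq V) (e1 e2 : DecidableRel G.Adj),
        @Matrix.det V d1 _ ℝ _ (@SimpleGraph.adjMatrix ℝ V G e1 _ _) =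
        @Matrix.det V d2 _ ℝ _ (@SimpleGraph.adjMatrix ℝ V G e2 _ _) := by
      intro d1 d2 e1 e2
      have hd : d1 = d2 := Subsingleton.elim _ _
      have he : e1 = e2 := Subsingleton.elim _ _
      subst hd he
      rfl
    rw [key]
  rw [h2, h]
  simp


lemma nonsingular₁ : Nonsingular G₁ := by
  rw [nonsingular_iff]
  intro h0
  let B : Matrix (Fin 7) (Fin 7) ℤ := !![
    3, 3, 3, -3, -3, -3, -3;
    3, -1, 1, 1, 1, -1, -1;
    3, 1, -1, -1, -1, 1, 1;
    -3, 1, -1, -1, 5, 1, 1;
    -3, 1, -1, 5, -1, 1, 1;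
    -3, -1, 1, 1, 1, -1, 5;
    -3, -1, 1, 1, 1, 5, -1]
  have h : G₁.adjMatrix ℤ * B = 6 := by decide
  have h1 := congrArg Matrix.det h
  rw [Matrix.det_mul, h0, zero_mul] at h1
  have h2 : (6 : Matrix (Fin 7) (Fin 7) ℤ).det = 6 ^ 7 := by
    have : (6 : Matrix (Fin 7) (Fin 7) ℤ) = Matrix.diagonal (fun _ => 6) := by decide
    rw [this, Matrix.det_diagonal]
    simp
  rw [h2] at h1
  norm_num at h1

lemma nonsingular₂ : Nonsingular G₂ := by
  rw [nonsingular_iff]
  intro h0
  let B : Matrix (Fin 4) (Fin 4) ℤ := !![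
    2, 1, -1, -1;
    1, 0, 0, 0;
    -1, 0, 0, 1;
    -1, 0, 1, 0]
  have h : G₂.adjMatrix ℤ * B = 1 := by decide
  have h1 := congrArg Matrix.det h
  rw [Matrix.det_mul, h0, zero_mul, Matrix.det_one] at h1
  norm_num at h1

lemma singular_join : ¬ Nonsingular (joinByEdge G₁ G₂ 0 0) := by
  have hdec : DecidableRel (joinByEdge G₁ G₂ 0 0).Adj := Classical.decRel _
  rw [nonsingular_iff, not_not]
  apply Matrix.exists_mulVec_eq_zero_iff.mp
  refine ⟨Sum.elim ![1, 1, 1, -1, -1, -1, -1] ![-2, -1, 1, 1], ?_, ?_⟩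
  · intro h
    have := congrFun h (Sum.inl 0)
    simp at this
  · have hadj : ∀ i j, (joinByEdge G₁ G₂ 0 0).Adj i j ↔
        Sum.elim (fun a => Sum.elim (fun b => adj₁ a b) (fun b => decide (a = 0 ∧ b = 0)) j)
          (fun a => Sum.elim (fun b => decide (a = 0 ∧ b = 0)) (fun b => adj₂ a b) j) i = true := by
      rintro (a | a) (b | b)
      · simp [joinByEdge, SimpleGraph.edge_adj, G₁]
      · simp [joinByEdge, SimpleGraph.edge_adj]
      · simp [joinByEdge, SimpleGraph.edge_adj]
      · simp [joinByEdge, SimpleGraph.edge_adj, G₂]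
    ext i
    simp only [Matrix.mulVec, dotProduct, SimpleGraph.adjMatrix_apply, hadj]
    revert i
    decide

/-- **MP_025d69_co, Q1 is false.**  There are block graphs `G₁` (on 7 vertices) and `G₂` (on 4
vertices), both nonsingular, and vertices `v₁`, `v₂` such that the graph obtained from the disjoint
union of `G₁` and `G₂` by adding the edge `v₁v₂` is singular. -/
theorem result :
    ∃ (G₁ : SimpleGraph (Fin 7)) (G₂ : SimpleGraph (Fin 4)) (v₁ : Fin 7) (v₂ : Fin 4),
      IsBlockGraph G₁ ∧ IsBlockGraph G₂ ∧ Nonsingular G₁ ∧ Nonsingular G₂ ∧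
        ¬ Nonsingular (joinByEdge G₁ G₂ v₁ v₂) :=
  ⟨G₁, G₂, 0, 0, isBlockGraph_of_sep connected₁ sep₁, isBlockGraph_of_sep connected₂ sep₂,
    nonsingular₁, nonsingular₂, singular_join⟩

end Pool.Agent.Results.MP_025d69_co.JoinByEdge
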